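import Mathlib
import Pool.Agent.W306.SP.Defs

/-!
# Project SP: kernels on the torus with Fourier coefficients bounded below
-/

set_option autoImplicit false

namespace Pool.Agent.W762.SP

open MeasureTheory UnitAddTorus Pool.Agent.W306.SP
open scoped ComplexConjugate

/-- normalised measure on the circle -/
noncomputable local instance : MeasureSpace UnitAddCircle := ⟨AddCircle.haarAddCircle⟩

/-- it is a Haar measure -/
local instance : Measure.IsAddHaarMeasure (volume : Measure UnitAddCircle) :=
  inferInstanceAs (Measure.IsAddHaarMeasure AddCircle.haarAddCircle)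

/-- it is a probability measure -/
local instance : IsProbabilityMeasure (volume : Measure UnitAddCircle) :=
  inferInstanceAs (IsProbabilityMeasure AddCircle.haarAddCircle)

variable {d : ℕ}

theorem mF_add (n : Fin d → ℤ) (x y : UnitAddTorus (Fin d)) :
    mFourier n (x + y) = mFourier n x * mFourier n y := by
  unfold mFourier
  simp only [ContinuousMap.coe_mk, ← Finset.prod_mul_distrib]
  refine Finset.prod_congr rfl fun i _ => ?_
  rw [Pi.add_apply, fourier_apply, fourier_apply, fourier_apply, smul_add,
    AddCircle.toCircle_add, Circle.coe_mul]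

theorem mF_norm (n : Fin d → ℤ) (x : UnitAddTorus (Fin d)) : ‖mFourier n x‖ = 1 := by
  unfold mFourier
  simp only [ContinuousMap.coe_mk, fourier_apply, norm_prod, Circle.norm_coe,
    Finset.prod_const_one]

/-- Fourier coefficients of a convolution. -/
theorem conv_coeff {F : UnitAddTorus (Fin d) → ℂ} (hF : Measurable F) {B : ℝ}
    (hB : ∀ x, ‖F x‖ ≤ B) {f : UnitAddTorus (Fin d) → ℂ} (hf : Measurable f)
    (hf1 : ∀ x, ‖f x‖ ≤ 1) (k : Fin d → ℤ) :
    mFourierCoeff (fun x => ∫ y, f y * F (x - y)) k = mFourierCoeff F k * mFourierCoeff f k := by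
  have hB0 : 0 ≤ B := (norm_nonneg _).trans (hB 0)
  have hmeas : Measurable fun p : UnitAddTorus (Fin d) × UnitAddTorus (Fin d) =>
      mFourier (-k) p.1 * (f p.2 * F (p.1 - p.2)) :=
    ((mFourier (-k)).continuous.measurable.comp measurable_fst).mul
      ((hf.comp measurable_snd).mul (hF.comp (measurable_fst.sub measurable_snd)))
  have hint : Integrable (Function.uncurry fun (x y : UnitAddTorus (Fin d)) =>
      mFourier (-k) x * (f y * F (x - y)))
      ((volume : Measure (UnitAddTorus (Fin d))).prod volume) := by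
    refine Integrable.of_bound hmeas.aestronglyMeasurable B (Filter.Eventually.of_forall ?_)
    rintro ⟨x, y⟩
    change ‖mFourier (-k) x * (f y * F (x - y))‖ ≤ B
    rw [norm_mul, norm_mul, mF_norm, one_mul]
    calc ‖f y‖ * ‖F (x - y)‖ ≤ 1 * B := mul_le_mul (hf1 y) (hB _) (norm_nonneg _) zero_le_one
      _ = B := one_mul B
  unfold mFourierCoeff
  simp only [smul_eq_mul]
  calc ∫ x, mFourier (-k) x * ∫ y, f y * F (x - y)
      = ∫ x, ∫ y, mFourier (-k) x * (f y * F (x - y)) := by
        refine integral_congr_ae (Filter.Eventually.of_forall fun x => ?_)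
        exact (integral_const_mul _ _).symm
    _ = ∫ y, ∫ x, mFourier (-k) x * (f y * F (x - y)) := integral_integral_swap hint
    _ = ∫ y, (mFourier (-k) y * f y) * ∫ x, mFourier (-k) x * F x := by
        refine integral_congr_ae (Filter.Eventually.of_forall fun y => ?_)
        change ∫ x, mFourier (-k) x * (f y * F (x - y)) =
          (mFourier (-k) y * f y) * ∫ x, mFourier (-k) x * F x
        rw [← integral_sub_right_eq_self (fun x => mFourier (-k) x * F x) y,
          ← integral_const_mul]
        refine integral_congr_ae (Filter.Eventually.of_forall fun x => ?_)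
        change mFourier (-k) x * (f y * F (x - y)) =
          (mFourier (-k) y * f y) * (mFourier (-k) (x - y) * F (x - y))
        have h1 : mFourier (-k) x = mFourier (-k) (x - y) * mFourier (-k) y := by
          rw [← mF_add, sub_add_cancel]
        rw [h1]
        ring
    _ = (∫ x, mFourier (-k) x * F x) * ∫ x, mFourier (-k) x * f x := by
        rw [integral_mul_const, mul_comm]

theorem tor : S_TOR := by
  classical
  intro d F hF hB κ hκ hc A hA
  obtain ⟨B, hB⟩ := hB
  choose c hcκ hc using hc
  have hB0 : 0 ≤ B := (abs_nonneg _).trans (hB 0)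
  have hμ : μ d = (volume : Measure (UnitAddTorus (Fin d))) := rfl
  rw [hμ]
  simp only [hμ] at hc
  set f : UnitAddTorus (Fin d) → ℂ := A.indicator fun _ => 1 with hf
  set g : UnitAddTorus (Fin d) → ℂ := fun x => ∫ y, f y * ((F (x - y) : ℝ) : ℂ) with hg
  have hfm : Measurable f := measurable_const.indicator hA
  have hf1 : ∀ x, ‖f x‖ ≤ 1 := by
    intro x
    rw [hf]
    by_cases h : x ∈ A
    · rw [Set.indicator_of_mem h, norm_one]
    · rw [Set.indicator_of_notMem h, norm_zero]
      exact zero_le_one
  have hFc : Measurable fun x => ((F x : ℝ) : ℂ) := Complex.measurable_ofReal.comp hF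
  have hFB : ∀ x, ‖((F x : ℝ) : ℂ)‖ ≤ B := by
    intro x
    rw [Complex.norm_real]
    exact hB x
  have hgm : AEStronglyMeasurable g volume := by
    have h1 : Measurable fun p : UnitAddTorus (Fin d) × UnitAddTorus (Fin d) =>
        f p.2 * ((F (p.1 - p.2) : ℝ) : ℂ) :=
      (hfm.comp measurable_snd).mul (hFc.comp (measurable_fst.sub measurable_snd))
    exact (h1.stronglyMeasurable.integral_prod_right' (ν := volume)).aestronglyMeasurable
  have hgB : ∀ x, ‖g x‖ ≤ B := by
    intro x
    rw [hg]
    refine (norm_integral_le_of_norm_le_const (C := B)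
      (Filter.Eventually.of_forall fun y => ?_)).trans (le_of_eq ?_)
    · rw [norm_mul]
      calc ‖f y‖ * ‖((F (x - y) : ℝ) : ℂ)‖ ≤ 1 * B :=
            mul_le_mul (hf1 y) (hFB _) (norm_nonneg _) zero_le_one
        _ = B := one_mul B
    · rw [probReal_univ, mul_one]
  have hfL : MemLp f 2 (volume : Measure (UnitAddTorus (Fin d))) :=
    MemLp.of_bound hfm.aestronglyMeasurable 1 (Filter.Eventually.of_forall hf1)
  have hgL : MemLp g 2 (volume : Measure (UnitAddTorus (Fin d))) :=
    MemLp.of_bound hgm B (Filter.Eventually.of_forall hgB)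
  have hcf : ∀ k, mFourierCoeff (hfL.toLp f) k = mFourierCoeff f k := by
    intro k
    refine integral_congr_ae ?_
    filter_upwards [hfL.coeFn_toLp] with t ht
    rw [ht]
  have hcg : ∀ k, mFourierCoeff (hgL.toLp g) k = (c k : ℂ) * mFourierCoeff f k := by
    intro k
    have h1 : mFourierCoeff (hgL.toLp g) k = mFourierCoeff g k := by
      refine integral_congr_ae ?_
      filter_upwards [hgL.coeFn_toLp] with t ht
      rw [ht]
    rw [h1, hg, conv_coeff hFc hFB hfm hf1 k]
    congr 1
    exact hc k
  set D : ℝ := ∫ x in A, (∫ y in A, F (x - y)) with hD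
  -- Parseval
  have hP := hasSum_prod_mFourierCoeff (hfL.toLp f) (hgL.toLp g)
  have hDint : ∫ t, conj ((hfL.toLp f) t) * (hgL.toLp g) t = (D : ℂ) := by
    have h1 : ∫ t, conj ((hfL.toLp f) t) * (hgL.toLp g) t = ∫ t, conj (f t) * g t := by
      refine integral_congr_ae ?_
      filter_upwards [hfL.coeFn_toLp, hgL.coeFn_toLp] with t h2 h3
      rw [h2, h3]
    have h4 : ∀ t, g t = ((∫ y in A, F (t - y) : ℝ) : ℂ) := by
      intro t
      rw [hg, ← integral_indicator hA, ← integral_complex_ofReal]
      refine integral_congr_ae (Filter.Eventually.of_forall fun y => ?_)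
      change f y * ((F (t - y) : ℝ) : ℂ) = ((A.indicator (fun y => F (t - y)) y : ℝ) : ℂ)
      rw [hf]
      by_cases h : y ∈ A
      · rw [Set.indicator_of_mem h, Set.indicator_of_mem h, one_mul]
      · rw [Set.indicator_of_notMem h, Set.indicator_of_notMem h, zero_mul, Complex.ofReal_zero]
    rw [h1, hD, ← integral_indicator hA, ← integral_complex_ofReal]
    refine integral_congr_ae (Filter.Eventually.of_forall fun t => ?_)
    change conj (f t) * g t = ((A.indicator (fun x => ∫ y in A, F (x - y)) t : ℝ) : ℂ)
    rw [h4, hf]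
    by_cases h : t ∈ A
    · rw [Set.indicator_of_mem h, Set.indicator_of_mem h, map_one, one_mul]
    · rw [Set.indicator_of_notMem h, Set.indicator_of_notMem h, map_zero, zero_mul,
        Complex.ofReal_zero]
  rw [hDint] at hP
  have hP2 : HasSum (fun k => c k * ‖mFourierCoeff f k‖ ^ 2) D := by
    have h1 : (fun k => conj (mFourierCoeff (hfL.toLp f) k) * mFourierCoeff (hgL.toLp g) k) =
        fun k => ((c k * ‖mFourierCoeff f k‖ ^ 2 : ℝ) : ℂ) := by
      funext k
      rw [hcf, hcg]
      push_cast
      rw [← Complex.conj_mul']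
      ring
    rw [h1] at hP
    exact Complex.hasSum_ofReal.1 hP
  have hQ := hasSum_sq_mFourierCoeff (hfL.toLp f)
  have hQint : ∫ t, ‖(hfL.toLp f) t‖ ^ 2 = (volume A).toReal := by
    have h1 : ∫ t, ‖(hfL.toLp f) t‖ ^ 2 = ∫ t, A.indicator (fun _ => (1 : ℝ)) t := by
      refine integral_congr_ae ?_
      filter_upwards [hfL.coeFn_toLp] with t h2
      rw [h2, hf]
      by_cases h : t ∈ A
      · rw [Set.indicator_of_mem h, Set.indicator_of_mem h, norm_one, one_pow]
      · rw [Set.indicator_of_notMem h, Set.indicator_of_notMem h, norm_zero]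
        norm_num
    rw [h1, integral_indicator hA, setIntegral_const, smul_eq_mul, mul_one]
    rfl
  rw [hQint] at hQ
  simp only [hcf] at hQ
  have hS := hP2.add (hQ.mul_left κ)
  have h0 : (c 0 * ‖mFourierCoeff f 0‖ ^ 2 + κ * ‖mFourierCoeff f 0‖ ^ 2) ≤
      D + κ * (volume A).toReal := by
    refine le_hasSum hS 0 fun k _ => ?_
    have h1 := hcκ k
    have h2 : 0 ≤ ‖mFourierCoeff f k‖ ^ 2 := sq_nonneg _
    nlinarith
  have hf0 : mFourierCoeff f 0 = (((volume A).toReal : ℝ) : ℂ) := by
    unfold mFourierCoeff
    simp only [neg_zero, mFourier_zero, ContinuousMap.one_apply, one_smul]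
    rw [hf, integral_indicator hA, setIntegral_const]
    simp [Measure.real]
  have hc0 : c 0 = ∫ x, F x := by
    have h1 := hc 0
    simp only [neg_zero, mFourier_zero, ContinuousMap.one_apply, one_mul] at h1
    rw [integral_complex_ofReal] at h1
    exact (Complex.ofReal_injective h1).symm
  rw [hf0, hc0, Complex.norm_real, Real.norm_of_nonneg ENNReal.toReal_nonneg] at h0
  have h5 : 0 ≤ κ * (volume A).toReal ^ 2 := by positivity
  linarith

end Pool.Agent.W762.SP
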